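import Pool.Agent.Helper11.KS.Asm
open MeasureTheory Metric Set Filter Topology Real
open scoped ENNReal NNReal

namespace H11ST
namespace KS
open NH

theorem kap_bounds : 2988 / 10000 < kap ∧ kap < 2989 / 10000 := by
  have h3 : (1.7320508 : ℝ) < √3 := Real.lt_sqrt_of_sq_lt (by norm_num)
  have h3' : √3 < (1.7320509 : ℝ) := (Real.sqrt_lt' (by norm_num)).2 (by norm_num)
  have h2 : (1.41421356 : ℝ) < √2 := Real.lt_sqrt_of_sq_lt (by norm_num)
  have h2' : √2 < (1.41421357 : ℝ) := (Real.sqrt_lt' (by norm_num)).2 (by norm_num)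
  have hp : 0 < √2 := by positivity
  rw [kap]
  constructor
  · rw [lt_div_iff₀ hp]; nlinarith
  · rw [div_lt_iff₀ hp]; nlinarith

theorem chain (hSIM : KS_SIM) (hHT : KS_HT) (hG0 : KS_G0) (hUR : KS_UR)
    (hGROW : KS_GROW) (hFLIP : KS_FLIP) (hCQ : KS_CQ) (hSEP : KS_SEP) (f1 : KS_FI1) (f2 : KS_FI2)
    (f3 : KS_FI3) (f4 : KS_FI4) (h3 : NoThree) : NoTwo kap := by
  obtain ⟨hsep, s0⟩ := hSEP
  have n1 : NoTwo (1 / 5) := by
    refine step hSIM hHT hG0 hUR hGROW hFLIP hCQ h3 (by norm_num) (by norm_num) (by norm_num)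
      (by norm_num) (by norm_num) (by norm_num) (by norm_num) ?_ s0 f1
    have h1 : √(1 - (1 / 5 : ℝ) ^ 2) ≤ 98 / 100 := Real.sqrt_le_iff.2 ⟨by norm_num, by norm_num⟩
    have h2 : (5655 / 10000 : ℝ) ≤ √(((2 - 1 / 5) / 3) ^ 2 - (1 / 5) ^ 2) :=
      (Real.le_sqrt' (by norm_num)).2 (by norm_num)
    linarith
  have n2 : NoTwo (1 / 4) := by
    refine step hSIM hHT hG0 hUR hGROW hFLIP hCQ h3 (by norm_num) (by norm_num) (by norm_num)
      (by norm_num) (by norm_num) (by norm_num) (by norm_num) ?_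
      (hsep (1 / 5) (by norm_num) (by norm_num) n1) f2
    have h1 : √(1 - (1 / 4 : ℝ) ^ 2) ≤ 9685 / 10000 :=
      Real.sqrt_le_iff.2 ⟨by norm_num, by norm_num⟩
    have h2 : (5270 / 10000 : ℝ) ≤ √(((2 - 1 / 4) / 3) ^ 2 - (1 / 4) ^ 2) :=
      (Real.le_sqrt' (by norm_num)).2 (by norm_num)
    linarith
  have n3 : NoTwo (28 / 100) := by
    refine step hSIM hHT hG0 hUR hGROW hFLIP hCQ h3 (by norm_num) (by norm_num) (by norm_num)
      (by norm_num) (by norm_num) (by norm_num) (by norm_num) ?_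
      (hsep (1 / 4) (by norm_num) (by norm_num) n2) f3
    have h1 : √(1 - (28 / 100 : ℝ) ^ 2) ≤ 96 / 100 :=
      Real.sqrt_le_iff.2 ⟨by norm_num, by norm_num⟩
    have h2 : (5 / 10 : ℝ) ≤ √(((2 - 28 / 100) / 3) ^ 2 - (28 / 100) ^ 2) :=
      (Real.le_sqrt' (by norm_num)).2 (by norm_num)
    linarith
  obtain ⟨k1, k2⟩ := kap_bounds
  refine step hSIM hHT hG0 hUR hGROW hFLIP hCQ h3 (by norm_num) (by norm_num) (by linarith)
      (by linarith) (by norm_num) (by norm_num) (by norm_num) ?_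
      (hsep (28 / 100) (by norm_num) (by norm_num) n3) f4
  have h1 : √(1 - kap ^ 2) ≤ 9545 / 10000 := Real.sqrt_le_iff.2 ⟨by norm_num, by nlinarith⟩
  have h2 : (4815 / 10000 : ℝ) ≤ √(((2 - kap) / 3) ^ 2 - kap ^ 2) :=
    (Real.le_sqrt' (by norm_num)).2 (by nlinarith)
  linarith

theorem nloc_one_of (h : NoTwo kap) {t : ℝ} (ht : t ≤ kap) : Nloc 2 t ≤ 1 := by
  refine Nloc_le (m := 1) fun A S x r hL Y hY hb hT => ?_
  by_contra hcon
  push Not at hcon
  obtain ⟨y, hy, y', hy', hne⟩ := Finset.one_lt_card.1 hcon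
  have hr := hL.rpos
  have hsub : ball x (t * r) ⊆ ball x (kap * r) :=
    ball_subset_ball (mul_le_mul_of_nonneg_right ht hr.le)
  exact h A S x r hL.adm hL.compact.isClosed y y' hne (hsub (hb y hy)) (hsub (hb y' hy'))
    (hT y hy) (hT y' hy')

end KS
end H11ST
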