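import Pool.Agent.Helper11.NH.All
import Pool.Agent.Helper11.KS.Chain
import Pool.Agent.Helper19.KS.SIM
import Pool.Agent.Helper20.KS.NADJ
import Pool.Agent.Helper35.KS.SEP
import Pool.Agent.Helper58.KS.FI4
import Pool.Agent.Helper63.KS.FIG
import Pool.Agent.Helper63.KS.FLIP
import Pool.Agent.Helper63.KS.GEO
import Pool.Agent.Helper63.KS.GROW
import Pool.Agent.Helper73.KS.HT
import Pool.Agent.Helper74.KS.GA
import Pool.Agent.Helper76.KS.CQ
import Pool.Agent.Helper76.KS.FAR
import Pool.Agent.Helper88.KS.CH6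
import Pool.Agent.Helper91.KS.LNG
import Pool.Agent.Helper95.KS.EXCH
import Pool.Agent.Helper97.KS.UR

namespace H11ST
namespace KS

/-- no two tripod points in the disc of ratio `kap` -/
theorem noTwo_kap : NoTwo kap :=
  chain sim_row (st_HT FAR76.ks_far (nadj exch ch6)) ks_G0 Helper97.KS.ks_UR
    (grow_row lng ks_GA ks_GB) (flip_row exch geo_row) CQ76.ks_cq ks_sep fi1_row fi2_row fi3_row
    Pool.Agent.Helper58.KS.fi4 NH.noThree

end KS
end H11ST
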