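import Pool.Agent.Helper11.KS.Sheet
import Pool.Agent.H11ST.Asm
open MeasureTheory Metric Set Filter Topology Real
open scoped ENNReal NNReal

namespace H11ST
namespace KS
open NH

theorem sg4_cases (i : Fin 4) : sg4 i = 1 ∨ sg4 i = -1 := by
  fin_cases i <;> simp [sg4]

/-- one step of the bootstrapping -/
theorem step (hSIM : KS_SIM) (hHT : KS_HT) (hG0 : KS_G0) (hUR : KS_UR)
    (hGROW : KS_GROW) (hFLIP : KS_FLIP) (hCQ : KS_CQ) (h3 : NoThree) {τ t η ρ : ℝ}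
    (hτ : 13 / 100 ≤ τ) (hτ' : τ ≤ 3 / 10) (ht : 0 < t) (ht' : t ≤ 3 / 10) (hη0 : 0 < η)
    (hη1 : η ≤ 1) (hη : η ≤ 91 / 100 * (2 * τ / (1 + τ) * (3 - 2 * τ / (1 + τ))))
    (hρ : √(1 - t ^ 2) - √(((2 - t) / 3) ^ 2 - t ^ 2) ≤ ρ) (hS : Sep τ)
    (hFI : KS_FI τ t η ρ) : NoTwo t := by
  intro A S x r L hA y y' hne hy hy' hT hT'
  obtain ⟨A', S', r', b, b', h, hbb, hb, hb', hTb, hTb'⟩ :=
    hSIM A S x r t L hA ht (by linarith) y y' hne hy hy' hT hT'
  obtain ⟨φ, s, a, v, c, rr, G, I, hts⟩ := hHT h3 A' S' r' h t ht ht' b b' hbb hb hb' hTb hTb'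
  obtain ⟨hd, hr0, hrr, p, g, h1, h2, hm, e0, e1, e2, e3, hq⟩ := hCQ t φ s a v c rr ht ht' G
  have hr1 := h.r1
  have L1 : LocAdm A' S' 0 1 := h.L.restrict one_pos (ball_subset_ball hr1.le)
  have hsep : τ * (1 - √(p ^ 2 + g ^ 2)) ≤ a / 2 := by
    have hne01 : s 0 ≠ s 1 := by
      intro h0
      have := G.apos
      rw [← hd, h0, dist_self] at this
      exact lt_irrefl _ this
    have := hS A' S' 0 1 L1 h.cl (s 0) (s 1) hne01
      (by rw [mem_ball_zero_iff]; linarith [G.sn 0]) (by rw [mem_ball_zero_iff]; linarith [G.sn 1])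
      (hts 0) (hts 1)
    rw [dist_zero_right, hm, hd] at this
    exact this
  have FI := hFI p g a rr G.apos h1 h2 hsep G.r0 (fun i => (hrr i).trans hρ)
    (fun i => c i + η * rr i)
    (![(a + ((c 0 + η * rr 0) + (c 1 + η * rr 1)) / 2) / √3 +
        √3 / 2 * ((c 0 + η * rr 0) - (c 1 + η * rr 1)),
      (a + ((c 0 + η * rr 0) + (c 1 + η * rr 1)) / 2) / √3 -
        √3 / 2 * ((c 0 + η * rr 0) - (c 1 + η * rr 1)),
      (a + ((c 2 + η * rr 2) + (c 3 + η * rr 3)) / 2) / √3 +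
        √3 / 2 * ((c 2 + η * rr 2) - (c 3 + η * rr 3)),
      (a + ((c 2 + η * rr 2) + (c 3 + η * rr 3)) / 2) / √3 -
        √3 / 2 * ((c 2 + η * rr 2) - (c 3 + η * rr 3))])
    (by rw [← e0]; ring) (by rw [← e1]; ring) (by rw [← e2]; ring) (by rw [← e3]; ring)
    rfl rfl rfl rfl
  obtain ⟨q, q', hqe, hqd, hqn, hqn'⟩ := hq (fun i => η * rr i) (fun i => c i + η * rr i)
    (![(a + ((c 0 + η * rr 0) + (c 1 + η * rr 1)) / 2) / √3 +
        √3 / 2 * ((c 0 + η * rr 0) - (c 1 + η * rr 1)),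
      (a + ((c 0 + η * rr 0) + (c 1 + η * rr 1)) / 2) / √3 -
        √3 / 2 * ((c 0 + η * rr 0) - (c 1 + η * rr 1)),
      (a + ((c 2 + η * rr 2) + (c 3 + η * rr 3)) / 2) / √3 +
        √3 / 2 * ((c 2 + η * rr 2) - (c 3 + η * rr 3)),
      (a + ((c 2 + η * rr 2) + (c 3 + η * rr 3)) / 2) / √3 -
        √3 / 2 * ((c 2 + η * rr 2) - (c 3 + η * rr 3))]) (fun _ => rfl) rfl rfl rfl rfl
  obtain ⟨hl, hn, hn', hlt⟩ := FI
  rw [← hqd] at hlt
  rw [← hqn] at hn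
  rw [← hqn'] at hn'
  have hgad : ∀ i, Gad S' (v i) (φ + dl4 i) (sg4 i) (η * rr i) := by
    intro i
    rcases (G.r0 i).eq_or_lt with h0 | h0
    · rw [← h0, mul_zero]
      refine hG0 S' (v i) _ _ (I.sub (Or.inr (mem_iUnion.2 ⟨i, right_mem_segment ℝ _ _⟩))) (G.vup i)
    · rcases I.vend i with h4 | ⟨h4, u, ε, h5, j, h6⟩
      · rw [hr0 i h4] at h0
        exact absurd h0 (lt_irrefl _)
      · have hU := hUR t φ s a v c rr ht ht' G i
        refine hGROW A' S' r' h τ hτ hτ' hS (v i) _ _ _ (rr i) (sg4_cases i) h4 ⟨u, ε, h5, j, h6⟩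
          (mul_pos hη0 h0) ?_ (G.rv i) hU ?_
        · nlinarith
        · have hk : 0 < 2 * τ / (1 + τ) * (3 - 2 * τ / (1 + τ)) := by
            nlinarith [hη0]
          calc η * rr i ≤ 91 / 100 * (2 * τ / (1 + τ) * (3 - 2 * τ / (1 + τ))) * rr i :=
                mul_le_mul_of_nonneg_right hη h0.le
            _ = 2 * τ / (1 + τ) * (3 - 2 * τ / (1 + τ)) * (91 / 100 * rr i) := by ring
            _ ≤ _ := mul_le_mul_of_nonneg_left hU hk.le
  have key := hFLIP A' S' r' h t φ s a v c rr ht ht' G I (fun i => η * rr i) _ q q'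
    (fun i => mul_nonneg hη0.le (G.r0 i)) hgad (fun i => ?_) (by nlinarith [norm_nonneg q])
    (by nlinarith [norm_nonneg q']) hqe
  · simp only [Fin.sum_univ_four] at key
    linarith
  · refine le_trans ?_ (hl i)
    refine mul_le_mul_of_nonneg_left ?_ (by positivity)
    exact mul_le_mul_of_nonneg_left ((hrr i).trans hρ) hη0.le

end KS
end H11ST
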