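import Pool.Agent.Helper11.NH.Sheet
open MeasureTheory Metric Set Filter Topology Real
open scoped ENNReal NNReal

/-!
# KS: at most one branching point in the disc of ratio `kap = (1 - √3 / 3) / √2`

`Nloc 2 t ≤ 1` for `t ≤ kap` (sharp, since `Nloc 2 t ≥ 2` for `t > kap`). Bootstrapping:
`Sep (13 / 100) → NoTwo (1 / 5) → Sep (1 / 5) → NoTwo (1 / 4) → Sep (1 / 4) → NoTwo (28 / 100) →
Sep (28 / 100) → NoTwo kap`.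
One step: two tripod points `s 0`, `s 1` with `‖s k‖ < t`; by `NoThree` every other tripod point has
norm `≥ (2 - t) / 3`; they are joined (NADJ); four arms. The competitor is the tree of the other
topology (middle edge perpendicular to `s 0 s 1`), its arms have the directions of the old arms
turned by `30°`. An arm which ends in a tripod point `v` at the distance `r` before the circle is
prolonged by a gadget: a piece of `S` behind `v` of length `η r`, which can be reconnected in the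
turned direction without loss (`Gad`).
-/

namespace H11ST
namespace KS
open NH

/-- the threshold -/
noncomputable def kap : ℝ := (1 - √3 / 3) / √2

/-- no three tripod points in the half disc (the theorem of NH) -/
def NoThree : Prop := ∀ (A S : Set (E 2)) (x : E 2) (r : ℝ), LocAdm A S x r → IsClosed A →
  ∀ Y : Finset (E 2), Y.card = 3 → (∀ y ∈ Y, y ∈ ball x (1 / 2 * r) ∧ ∃ u ε, Tri S y u ε) → False

/-- no two tripod points in the disc of ratio `t` -/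
def NoTwo (t : ℝ) : Prop := ∀ (A S : Set (E 2)) (x : E 2) (r : ℝ), LocAdm A S x r → IsClosed A →
  ∀ y y' : E 2, y ≠ y' → y ∈ ball x (t * r) → y' ∈ ball x (t * r) → (∃ u ε, Tri S y u ε) →
  (∃ u ε, Tri S y' u ε) → False

/-- separation of tripod points -/
def Sep (τ : ℝ) : Prop := ∀ (A S : Set (E 2)) (x : E 2) (r : ℝ), LocAdm A S x r → IsClosed A →
  ∀ y y' : E 2, y ≠ y' → y ∈ ball x r → y' ∈ ball x r → (∃ u ε, Tri S y u ε) →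
  (∃ u ε, Tri S y' u ε) → τ * (r - dist (midpoint ℝ y y') x) ≤ dist y y' / 2

/-- directions of the four arms (relative to `φ`), counterclockwise -/
noncomputable def dl4 : Fin 4 → ℝ := ![π / 3, 2 * π / 3, 4 * π / 3, 5 * π / 3]
/-- feet of the four arms -/
def ft4 : Fin 4 → Fin 2 := ![1, 0, 0, 1]
/-- the arms `0`, `2` are turned clockwise, the arms `1`, `3` counterclockwise -/
def sg4 : Fin 4 → ℝ := ![1, -1, 1, -1]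

/-- the tree -/
def tree4 (s : Fin 2 → E 2) (v : Fin 4 → E 2) : Set (E 2) :=
  segment ℝ (s 0) (s 1) ∪ ⋃ i, segment ℝ (s (ft4 i)) (v i)

/-- the tree without the arm `i` -/
def rest4 (s : Fin 2 → E 2) (v : Fin 4 → E 2) (i : Fin 4) : Set (E 2) :=
  segment ℝ (s 0) (s 1) ∪ ⋃ j ∈ {j | j ≠ i}, segment ℝ (s (ft4 j)) (v j)

/-- the geometry of the tree; `rr i` is the distance from `v i` to the circle in the direction of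
the arm -/
structure Geo4 (t φ : ℝ) (s : Fin 2 → E 2) (a : ℝ) (v : Fin 4 → E 2) (c rr : Fin 4 → ℝ) :
    Prop where
  apos : 0 < a
  s1 : s 1 = s 0 + a • ev φ
  sn : ∀ k, ‖s k‖ < t
  cpos : ∀ i, 0 < c i
  vd : ∀ i, v i = s (ft4 i) + c i • ev (φ + dl4 i)
  vlow : ∀ i, (2 - t) / 3 ≤ ‖v i‖
  vup : ∀ i, ‖v i‖ ≤ 1
  r0 : ∀ i, 0 ≤ rr i
  rv : ∀ i, ‖v i + rr i • ev (φ + dl4 i)‖ = 1

/-- the tree is a part of `S`, open in `S` except for the ends of the arms -/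
structure InS4 (S : Set (E 2)) (φ : ℝ) (s : Fin 2 → E 2) (v : Fin 4 → E 2) : Prop where
  sub : tree4 s v ⊆ S
  loc : ∀ z ∈ tree4 s v, (∀ i, z ≠ v i) → ∃ ε > 0, S ∩ ball z ε ⊆ tree4 s v
  vend : ∀ i, ‖v i‖ = 1 ∨ ‖v i‖ < 1 ∧ ∃ u ε, Tri S (v i) u ε ∧ ∃ j, u j = -ev (φ + dl4 i)

/-- an edge (or a part of an edge) of `S` in the closed unit disc -/
structure Edge (S : Set (E 2)) (v e : E 2) (X : ℝ) : Prop where
  pos : 0 < X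
  ray : PU.Ray S v e X
  mem : ∀ s : ℝ, 0 ≤ s → s ≤ X → v + s • e ∈ S ∧ ‖v + s • e‖ ≤ 1

/-- `v` is a tripod point of `S` with the arm `-ev β` (so also with the arms `ev (β ± 60°)`) -/
def TriB (S : Set (E 2)) (v : E 2) (β : ℝ) : Prop :=
  ∃ u ε, Tri S v u ε ∧ ∃ j, u j = -ev β

/-- the piece `T` of `S` behind `v` with the ends `V` (gadget): length `≥ e`, and it can be replaced
by sets of length `l` which join `V` to the point `v + e • ev β - l • ev (β - σ 30°)` -/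
structure GadD (S : Set (E 2)) (v : E 2) (β σ e : ℝ) (T : Set (E 2)) (V : Finset (E 2)) :
    Prop where
  comp : IsCompact T
  conn : IsPreconnected T
  vT : v ∈ T
  sub : T ⊆ S
  ball : T ⊆ closedBall 0 1
  Vne : V.Nonempty
  VT : ∀ z ∈ V, z ∈ T
  half : ∀ z ∈ T, 0 ≤ inner ℝ (z - v) (ev β)
  len : ENNReal.ofReal e ≤ μH[1] T
  loc : ∀ z ∈ T, z ∉ V → z ≠ v → ∃ ε > 0, S ∩ Metric.ball z ε ⊆ T
  locv : v ∉ V → ∃ ε > 0, ∀ z ∈ S ∩ Metric.ball v ε, z ∈ T ∨ ∃ s : ℝ, 0 ≤ s ∧ s < ε ∧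
    z = v - s • ev β
  repl : ∀ l : ℝ, 2 / √3 * e ≤ l → ‖v + e • ev β - l • ev (β - σ * (π / 6))‖ ≤ 1 →
    ∃ F : Set (E 2), IsCompact F ∧ IsPreconnected F ∧
      v + e • ev β - l • ev (β - σ * (π / 6)) ∈ F ∧ (∀ z ∈ V, z ∈ F) ∧ F ⊆ closedBall 0 1 ∧
      μH[1] F ≤ ENNReal.ofReal l

/-- existence of a gadget -/
def Gad (S : Set (E 2)) (v : E 2) (β σ e : ℝ) : Prop := ∃ T V, GadD S v β σ e T V

/-! ## The rows -/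

/-- (SIM2) scaling, as NH SIM -/
def KS_SIM : Prop := ∀ (A S : Set (E 2)) (x : E 2) (r t : ℝ), LocAdm A S x r → IsClosed A →
  0 < t → t < 1 → ∀ y y' : E 2, y ≠ y' → y ∈ ball x (t * r) → y' ∈ ball x (t * r) →
  (∃ u ε, Tri S y u ε) → (∃ u ε, Tri S y' u ε) →
  ∃ (A' S' : Set (E 2)) (r' : ℝ) (b b' : E 2), Setup A' S' r' ∧ b ≠ b' ∧ ‖b‖ < t ∧ ‖b'‖ < t ∧
    (∃ u ε, Tri S' b u ε) ∧ (∃ u ε, Tri S' b' u ε)

/-- (SEP) `NoTwo t → Sep t` (restrict to the ball around the midpoint), and the start -/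
def KS_SEP : Prop := (∀ t : ℝ, 0 < t → t < 1 → NoTwo t → Sep t) ∧ Sep (13 / 100)

/-- (FAR) a third tripod point is far: use the disc of centre `λ v / ‖v‖`, `λ = (1 - 2 t) / 3` and
radius `1 - λ` -/
def KS_FAR : Prop := NoThree → ∀ (A S : Set (E 2)) (r : ℝ), Setup A S r → ∀ t : ℝ, 0 < t →
  t ≤ 3 / 10 → ∀ b b' : E 2, b ≠ b' → ‖b‖ < t → ‖b'‖ < t → (∃ u ε, Tri S b u ε) →
  (∃ u ε, Tri S b' u ε) → ∀ v : E 2, v ≠ b → v ≠ b' → ‖v‖ ≤ 1 → (∃ u ε, Tri S v u ε) →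
  (2 - t) / 3 ≤ ‖v‖

/-- (EXCH2) exchange without connectedness of `T` (the proof of NH EXCH) -/
def KS_EXCH : Prop := ∀ (A S : Set (E 2)) (r : ℝ), LocAdm A S 0 r → IsClosed A →
  ∀ (T F K : Set (E 2)) (V : Finset (E 2)), IsCompact T → T ⊆ S →
  T ⊆ ball 0 r → V.Nonempty → (∀ z ∈ V, z ∈ T) →
  (∀ z ∈ T, z ∉ V → ∃ ε > 0, S ∩ ball z ε ⊆ T) →
  IsCompact F → F ⊆ ball 0 r → K ⊆ S → (∀ z ∈ K, z ∈ T → z ∈ V) → IsPreconnected (F ∪ K) →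
  (∀ z ∈ V, z ∈ F ∪ K) → μH[1] T ≤ μH[1] F

/-- (CH6) six points of a circle are joined by five chords of total length `≤ 5 ρ` -/
def KS_CH6 : Prop := ∀ (ρ : ℝ), 0 < ρ → ∀ P : Finset (E 2), P.card = 6 → (∀ p ∈ P, ‖p‖ = ρ) →
  ∃ F : Set (E 2), IsCompact F ∧ IsPreconnected F ∧ (∀ p ∈ P, p ∈ F) ∧ F ⊆ closedBall 0 ρ ∧
    μH[1] F ≤ ENNReal.ofReal (5 * ρ)

/-- (NADJ) two tripod points whose six arms all reach the circle of radius `49 / 100` are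
impossible: remove both stars (lengths `≥ 3 / 2 (ρ + √(ρ² - t²))` each), add five chords -/
def KS_NADJ : Prop := ∀ (A S : Set (E 2)) (r : ℝ), Setup A S r → ∀ b b' : E 2, b ≠ b' →
  ‖b‖ < 3 / 10 → ‖b'‖ < 3 / 10 → ∀ (u u' : Fin 3 → E 2) (ε ε' : ℝ), Tri S b u ε → Tri S b' u' ε' →
  (∀ i, ∀ s : ℝ, 0 < s → ‖b + s • u i‖ ≤ 49 / 100 → ∃ δ, Lin S (b + s • u i) (u i) δ) →
  (∀ i, ∀ s : ℝ, 0 < s → ‖b' + s • u' i‖ ≤ 49 / 100 → ∃ δ, Lin S (b' + s • u' i) (u' i) δ) → False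

/-- (HT) the tree: FAR, NADJ, `ray_unit` -/
def KS_HT : Prop := NoThree → ∀ (A S : Set (E 2)) (r : ℝ), Setup A S r → ∀ t : ℝ, 0 < t →
  t ≤ 3 / 10 → ∀ b b' : E 2, b ≠ b' → ‖b‖ < t → ‖b'‖ < t → (∃ u ε, Tri S b u ε) →
  (∃ u ε, Tri S b' u ε) → ∃ φ s a v c rr, Geo4 t φ s a v c rr ∧ InS4 S φ s v ∧
    (∀ k, ∃ u ε, Tri S (s k) u ε)

/-- (G0) the trivial gadget -/
def KS_G0 : Prop := ∀ (S : Set (E 2)) (v : E 2) (β σ : ℝ), v ∈ S → ‖v‖ ≤ 1 → Gad S v β σ 0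

/-- (GA) the gadget with two ends `eR = v + x ev (β - σ 60°)`, `eL = v + y ev (β + σ 60°)`.
`d' = ev (β - σ 30°)`, `v' = v + (x + y) ev β - (2 y + x) / √3 • d'`, `F = [q, v'] ∪ [v', eR] ∪
[v', eL]`, lengths `l - (2 y + x) / √3`, `(y + 2 x) / √3`, `(y - x) / √3` -/
def KS_GA : Prop := ∀ (S : Set (E 2)) (v : E 2) (β σ x y : ℝ), (σ = 1 ∨ σ = -1) → x ≤ y →
  TriB S v β → Edge S v (ev (β - σ * (π / 3))) x → Edge S v (ev (β + σ * (π / 3))) y →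
  ‖v + (x + y) • ev β‖ ≤ 1 → Gad S v β σ (x + y)

/-- (GB) the gadget with the ends `eR`, `w + z ev (β + σ 120°)`, `w + z ev β`, where
`w = v + y ev (β + σ 60°)` is a tripod point. `ℓ = y + 2 z`,
`v' = v + (x + ℓ) ev β - (2 ℓ + x) / √3 • d'`, `F = [q, v'] ∪ [v', eR] ∪ [v', eLL] ∪ [eLL, eLR]`,
lengths `l - (2 ℓ + x) / √3`, `(ℓ + 2 x) / √3`, `(y - x - z) / √3`, `√3 z` -/
def KS_GB : Prop := ∀ (S : Set (E 2)) (v : E 2) (β σ x y z : ℝ), (σ = 1 ∨ σ = -1) →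
  x + z ≤ y → TriB S v β → Edge S v (ev (β - σ * (π / 3))) x →
  Edge S v (ev (β + σ * (π / 3))) y → TriB S (v + y • ev (β + σ * (π / 3))) (β + σ * (π / 3)) →
  Edge S (v + y • ev (β + σ * (π / 3))) (ev (β + σ * (2 * π / 3))) z →
  Edge S (v + y • ev (β + σ * (π / 3))) (ev β) z →
  ‖v + (x + y + 2 * z) • ev β‖ ≤ 1 → Gad S v β σ (x + y + 2 * z)

/-- (LNG) the two edges which start at a tripod point are long -/
def KS_LNG : Prop := ∀ (A S : Set (E 2)) (r : ℝ), Setup A S r → ∀ τ : ℝ, 0 < τ → τ < 1 → Sep τ →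
  ∀ (v : E 2) (β σ : ℝ), (σ = 1 ∨ σ = -1) → ‖v‖ < 1 → TriB S v β →
  ∃ X : ℝ, Edge S v (ev (β + σ * (π / 3))) X ∧ 2 * τ / (1 + τ) * (1 - ‖v‖) ≤ X ∧
    (‖v + X • ev (β + σ * (π / 3))‖ = 1 ∨
      ‖v + X • ev (β + σ * (π / 3))‖ < 1 ∧ TriB S (v + X • ev (β + σ * (π / 3))) (β + σ * (π / 3)))

/-- (UR) -/
def KS_UR : Prop := ∀ (t φ : ℝ) (s : Fin 2 → E 2) (a : ℝ) (v : Fin 4 → E 2) (c rr : Fin 4 → ℝ),
  0 < t → t ≤ 3 / 10 → Geo4 t φ s a v c rr → ∀ i, 91 / 100 * rr i ≤ 1 - ‖v i‖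

/-- (GROW) the gadget of length `e`: from LNG, GA, GB. With `U = 1 - ‖v‖`, `κ = 2 τ / (1 + τ)`:
(A1) `e / 2 ≤ X, Y`; (A2) `X < e / 2`, `e - X ≤ Y`; (B) `x = min X (3 Y - e)`,
`z = (e - x - Y) / 2 ≤ κ (U - Y)` -/
def KS_GROW : Prop := ∀ (A S : Set (E 2)) (r : ℝ), Setup A S r → ∀ τ : ℝ, 13 / 100 ≤ τ →
  τ ≤ 3 / 10 → Sep τ → ∀ (v : E 2) (β σ e rr : ℝ), (σ = 1 ∨ σ = -1) → ‖v‖ < 1 → TriB S v β →
  0 < e → e ≤ rr → ‖v + rr • ev β‖ = 1 → 91 / 100 * rr ≤ 1 - ‖v‖ →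
  e ≤ 2 * τ / (1 + τ) * (3 - 2 * τ / (1 + τ)) * (1 - ‖v‖) → Gad S v β σ e

/-- (GEO4) plane geometry of the tree -/
def KS_GEO : Prop := ∀ (t φ : ℝ) (s : Fin 2 → E 2) (a : ℝ) (v : Fin 4 → E 2) (c rr : Fin 4 → ℝ),
  t ≤ 3 / 10 → Geo4 t φ s a v c rr →
  IsCompact (tree4 s v) ∧ IsPreconnected (tree4 s v) ∧ tree4 s v ⊆ closedBall 0 1 ∧
  (∀ i, tree4 s v = rest4 s v i ∪ segment ℝ (s (ft4 i)) (v i)) ∧
  (∀ i, IsCompact (rest4 s v i) ∧ IsPreconnected (rest4 s v i) ∧ (∀ k, s k ∈ rest4 s v i) ∧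
    (∀ j, j ≠ i → v j ∈ rest4 s v i) ∧
    rest4 s v i ∩ segment ℝ (s (ft4 i)) (v i) ⊆ {s (ft4 i)}) ∧
  μH[1] (tree4 s v) = ENNReal.ofReal (a + ∑ i, c i)

/-- (FLIP) the exchange. First (as in NH DISJ) the `T i` are disjoint from each other and meet the
tree only in `v i`; then `T = tree4 ∪ ⋃ T i`, `V = ⋃ V i`, `F = ⋃ F i ∪ [q, q']` -/
def KS_FLIP : Prop := ∀ (A S : Set (E 2)) (r : ℝ), Setup A S r →
  ∀ (t φ : ℝ) (s : Fin 2 → E 2) (a : ℝ) (v : Fin 4 → E 2) (c rr : Fin 4 → ℝ), 0 < t → t ≤ 3 / 10 →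
  Geo4 t φ s a v c rr → InS4 S φ s v → ∀ (e l : Fin 4 → ℝ) (q q' : E 2), (∀ i, 0 ≤ e i) →
  (∀ i, Gad S (v i) (φ + dl4 i) (sg4 i) (e i)) → (∀ i, 2 / √3 * e i ≤ l i) → ‖q‖ ≤ 1 → ‖q'‖ ≤ 1 →
  (∀ i, v i + e i • ev (φ + dl4 i) - l i • ev (φ + dl4 i - sg4 i * (π / 6)) =
    ![q, q, q', q'] i) →
  a + ∑ i, (c i + e i) ≤ ∑ i, l i + dist q q'

/-- (CQ) coordinates: `(p, g)` = the midpoint of `s 0`, `s 1` in the frame `ev φ, ev (φ + 90°)`; full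
lengths of the arms, the bound for `rr i`; the two new tripod points
`q = (p + (C 1 - C 0) / 2, g + (C 0 + C 1 - a) / (2 √3))`,
`q' = (p + (C 2 - C 3) / 2, g - (C 2 + C 3 - a) / (2 √3))`, where `C i = c i + e i` -/
def KS_CQ : Prop := ∀ (t φ : ℝ) (s : Fin 2 → E 2) (a : ℝ) (v : Fin 4 → E 2) (c rr : Fin 4 → ℝ),
  0 < t → t ≤ 3 / 10 → Geo4 t φ s a v c rr →
  dist (s 0) (s 1) = a ∧ (∀ i, ‖v i‖ = 1 → rr i = 0) ∧
  (∀ i, rr i ≤ √(1 - t ^ 2) - √(((2 - t) / 3) ^ 2 - t ^ 2)) ∧ ∃ p g : ℝ,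
  (p + a / 2) ^ 2 + g ^ 2 < t ^ 2 ∧ (p - a / 2) ^ 2 + g ^ 2 < t ^ 2 ∧
  ‖midpoint ℝ (s 0) (s 1)‖ = √(p ^ 2 + g ^ 2) ∧
  c 0 + rr 0 = √(1 - ((g - √3 * p) / 2 - √3 / 4 * a) ^ 2) - ((p + a / 2) / 2 + √3 / 2 * g) ∧
  c 1 + rr 1 = √(1 - ((g + √3 * p) / 2 - √3 / 4 * a) ^ 2) - (-(p - a / 2) / 2 + √3 / 2 * g) ∧
  c 2 + rr 2 = √(1 - ((g - √3 * p) / 2 + √3 / 4 * a) ^ 2) - (-(p - a / 2) / 2 - √3 / 2 * g) ∧
  c 3 + rr 3 = √(1 - ((g + √3 * p) / 2 + √3 / 4 * a) ^ 2) - ((p + a / 2) / 2 - √3 / 2 * g) ∧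
  ∀ (e C l : Fin 4 → ℝ), (∀ i, C i = c i + e i) →
  l 0 = (a + (C 0 + C 1) / 2) / √3 + √3 / 2 * (C 0 - C 1) →
  l 1 = (a + (C 0 + C 1) / 2) / √3 - √3 / 2 * (C 0 - C 1) →
  l 2 = (a + (C 2 + C 3) / 2) / √3 + √3 / 2 * (C 2 - C 3) →
  l 3 = (a + (C 2 + C 3) / 2) / √3 - √3 / 2 * (C 2 - C 3) → ∃ q q' : E 2,
  (∀ i, v i + e i • ev (φ + dl4 i) - l i • ev (φ + dl4 i - sg4 i * (π / 6)) =
    (![q, q, q', q'] : Fin 4 → E 2) i) ∧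
  dist q q' = √((C 0 + C 2 - C 1 - C 3) ^ 2 / 4 + (C 0 + C 1 + C 2 + C 3 - 2 * a) ^ 2 / 12) ∧
  ‖q‖ ^ 2 = (p + (C 1 - C 0) / 2) ^ 2 + (g + (C 0 + C 1 - a) / (2 * √3)) ^ 2 ∧
  ‖q'‖ ^ 2 = (p + (C 2 - C 3) / 2) ^ 2 + (g - (C 2 + C 3 - a) / (2 * √3)) ^ 2

/-- (FI) the inequality, for one step `τ → t`, with `e i = η R i` -/
def KS_FI (τ t η ρ : ℝ) : Prop := ∀ (p g a : ℝ) (R : Fin 4 → ℝ), 0 < a →
  (p + a / 2) ^ 2 + g ^ 2 < t ^ 2 → (p - a / 2) ^ 2 + g ^ 2 < t ^ 2 →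
  τ * (1 - √(p ^ 2 + g ^ 2)) ≤ a / 2 → (∀ i, 0 ≤ R i) → (∀ i, R i ≤ ρ) → ∀ C l : Fin 4 → ℝ,
  C 0 = √(1 - ((g - √3 * p) / 2 - √3 / 4 * a) ^ 2) - ((p + a / 2) / 2 + √3 / 2 * g) -
    (1 - η) * R 0 →
  C 1 = √(1 - ((g + √3 * p) / 2 - √3 / 4 * a) ^ 2) - (-(p - a / 2) / 2 + √3 / 2 * g) -
    (1 - η) * R 1 →
  C 2 = √(1 - ((g - √3 * p) / 2 + √3 / 4 * a) ^ 2) - (-(p - a / 2) / 2 - √3 / 2 * g) -
    (1 - η) * R 2 →
  C 3 = √(1 - ((g + √3 * p) / 2 + √3 / 4 * a) ^ 2) - ((p + a / 2) / 2 - √3 / 2 * g) -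
    (1 - η) * R 3 →
  l 0 = (a + (C 0 + C 1) / 2) / √3 + √3 / 2 * (C 0 - C 1) →
  l 1 = (a + (C 0 + C 1) / 2) / √3 - √3 / 2 * (C 0 - C 1) →
  l 2 = (a + (C 2 + C 3) / 2) / √3 + √3 / 2 * (C 2 - C 3) →
  l 3 = (a + (C 2 + C 3) / 2) / √3 - √3 / 2 * (C 2 - C 3) →
  (∀ i, 2 / √3 * (η * ρ) ≤ l i) ∧
  (p + (C 1 - C 0) / 2) ^ 2 + (g + (C 0 + C 1 - a) / (2 * √3)) ^ 2 ≤ 1 ∧
  (p + (C 2 - C 3) / 2) ^ 2 + (g - (C 2 + C 3 - a) / (2 * √3)) ^ 2 ≤ 1 ∧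
  l 0 + l 1 + l 2 + l 3 + √((C 0 + C 2 - C 1 - C 3) ^ 2 / 4 +
    (C 0 + C 1 + C 2 + C 3 - 2 * a) ^ 2 / 12) < a + (C 0 + C 1 + C 2 + C 3)

/-- (FI1) minimum of the difference .0878, of `l i - ..` .135, maximum of the squares .28 -/
def KS_FI1 : Prop := KS_FI (13 / 100) (1 / 5) (579 / 1000) (415 / 1000)
/-- (FI2) .0447, .112, .27 -/
def KS_FI2 : Prop := KS_FI (1 / 5) (1 / 4) (808 / 1000) (442 / 1000)
/-- (FI3) .0216, .122, .25 -/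
def KS_FI3 : Prop := KS_FI (1 / 4) (28 / 100) (946 / 1000) (46 / 100)
/-- (FI4) 0 (sharp for `p = g = 0`, `a = 2 kap`), .125, .23. With `P = ∑ √(1 - h i ^ 2)`, `X` the
alternating sum: `C i` total `P - a`, sum of the `l i` `= (3 a + P) / √3`, the root is
`√(X ^ 2 / 4 + (P - 3 a) ^ 2 / 12)`; `P ≥ 4 √(1 - 3 a ^ 2 / 16) - B (p ^ 2 + g ^ 2)`,
`p ^ 2 + g ^ 2 ≤ t (2 t - a)`, `|X| ≤ B' (p ^ 2 + g ^ 2)` -/
def KS_FI4 : Prop := KS_FI (28 / 100) kap 1 (473 / 1000)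

end KS
end H11ST
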